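import Pool.Agent.Q29.RS.El
import Pool.Agent.Q29.RS.Ht

/-! Question 2 of MP_2a35bd_al has a negative answer, already for monomial matrices with two
columns of the same degree three: for
`φ = (x³, y²z; x²z, x²y; yz², x³)` two minimal generators of the Rees ideal of bidegree (2, 3)
are iterated Sylvester forms. -/

open MvPolynomial

namespace Pool.Agent.Results.MP_2a35bd_al.SharedBidegree

open Pool.Agent.Q29.RS

universe u

theorem result : ∀ (k : Type u) [Field k], ∃ φ : Matrix (Fin 3) (Fin 2) (R k),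
    (∀ i j, ∃ m, φ i j = monomial m 1) ∧ IsAdmissible φ 3 3 ∧
    ∃ G : Finset (S k), IsMinimalGenerating (reesIdeal φ) G ∧
      ∃ F₁ ∈ G, ∃ F₂ ∈ G, F₁ ≠ F₂ ∧
        IsIteratedSylvester φ F₁ ∧ IsIteratedSylvester φ F₂ ∧
        IsBihom F₁ 2 3 ∧ IsBihom F₂ 2 3 := by
  intro k _
  refine ⟨phi k, ?_, admissible, ?_⟩
  · have h1 := mX (A := k) (3, 0, 0)
    have h2 := mX (A := k) (0, 2, 1)
    have h3 := mX (A := k) (2, 0, 1)
    have h4 := mX (A := k) (2, 1, 0)
    have h5 := mX (A := k) (0, 1, 2)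
    intro i j
    fin_cases i <;> fin_cases j
    · exact ⟨fs (3, 0, 0), by rw [h1]; simp [phi]⟩
    · exact ⟨fs (0, 2, 1), by rw [h2]; simp [phi]⟩
    · exact ⟨fs (2, 0, 1), by rw [h3]; simp [phi]⟩
    · exact ⟨fs (2, 1, 0), by rw [h4]; simp [phi]⟩
    · exact ⟨fs (0, 1, 2), by rw [h5]; simp [phi]⟩
    · exact ⟨fs (3, 0, 0), by rw [h1]; simp [phi]⟩
  · obtain ⟨G, hG, h1, h2⟩ := exists_min (ctx (k := k))
    refine ⟨G, hG, E₁ k, h1, E₂ k, h2, ?_, iter_E₁, iter_E₂, bi_E₁, bi_E₂⟩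
    intro h
    apply E₁_ne (k := k) 0 1
    rw [zero_mul, zero_add, one_mul]
    exact h

end Pool.Agent.Results.MP_2a35bd_al.SharedBidegree
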